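import Mathlib
import Pool.Agent.LeoD.LocStmts

/-!
# MRB: the residue classes of the family
-/

set_option autoImplicit false

open NumberField IsDedekindDomain Module
open Pool.Agent.LeoK Pool.Agent.LeoG Pool.Agent.LeoC

open scoped Classical

namespace Pool.Agent.LeoD.H89

lemma dE_nonneg {k : Type} [Field k] [NumberField k] (E : Set (HeightOneSpectrum (𝓞 k)))
    (p : HeightOneSpectrum (𝓞 k)) (h : 2 ≤ np p) : 0 ≤ dE E p := by
  have h0 : 0 < np p := by linarith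
  have h1 : 1 / np p ≤ 1 := by
    rw [div_le_one h0]
    linarith
  have h2 : 1 / np p ^ 2 ≤ 1 := by
    rw [div_le_one (by positivity)]
    nlinarith
  unfold dE
  split_ifs
  · exact div_nonneg (by linarith) h0.le
  · linarith
  · linarith

lemma unit_card {k : Type} [Field k] [NumberField k] (I : Ideal (𝓞 k)) (U : Set (𝓞 k)) :
    ((fun (v : Unit → 𝓞 k) (i : Unit) => Ideal.Quotient.mk I (v i)) '' {v | v () ∈ U}).ncard =
      (Ideal.Quotient.mk I '' U).ncard := by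
  have hinj : Function.Injective (fun f : Unit → 𝓞 k ⧸ I => f ()) := by
    intro f g h
    funext i
    exact h
  rw [← Set.ncard_image_of_injective _ hinj]
  congr 1
  ext x
  constructor
  · rintro ⟨_, ⟨v, hv, rfl⟩, rfl⟩
    exact ⟨v (), hv, rfl⟩
  · rintro ⟨m, hm, rfl⟩
    exact ⟨_, ⟨fun _ => m, hm, rfl⟩, rfl⟩

lemma prod2 (vpi : VpiStmt) {k : Type} [Field k] [NumberField k] (B : BFr k)
    (Q : Finset (HeightOneSpectrum (𝓞 k)))
    (hQ : ∀ p : HeightOneSpectrum (𝓞 k), (6 * B.b : 𝓞 k) ∈ p.asIdeal → p ∈ Q) :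
    ∏ p ∈ Q, np p ^ ordp p (Ideal.span {(2 : 𝓞 k)}) = 2 ^ finrank ℚ k := by
  obtain ⟨-, -, -, v4, -⟩ := vpi k
  have h5 : (2 : 𝓞 k) = ((2 : ℕ) : 𝓞 k) := by norm_num
  rw [← v4 (Ideal.span {(2 : 𝓞 k)}) Q ?_ ?_]
  · rw [h5, Ideal.absNorm_span_natCast]
    push_cast
    rw [RingOfIntegers.rank]
  · rw [ne_eq, Ideal.span_singleton_eq_bot]
    norm_num
  · intro p hp
    apply hQ
    have h5 : (2 : 𝓞 k) ∈ p.asIdeal := hp (Ideal.mem_span_singleton_self (2 : 𝓞 k))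
    have h6 : (6 * B.b : 𝓞 k) = (3 * B.b) * 2 := by ring
    rw [h6]
    exact Ideal.mul_mem_left _ _ h5

lemma b_mem {k : Type} [Field k] [NumberField k] (B : BFr k) : (B.b : 𝓞 k) ∈ B.cc := by
  have h5 : (B.b : 𝓞 k) ∈ B.bb * B.cc := by
    rw [B.mul]
    exact Ideal.mem_span_singleton_self (B.b : 𝓞 k)
  exact Ideal.mul_le_right h5

lemma prodcc (vpi : VpiStmt) (bfn : BfnStmt) {k : Type} [Field k] [NumberField k] (B : BFr k)
    (Q : Finset (HeightOneSpectrum (𝓞 k)))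
    (hQ : ∀ p : HeightOneSpectrum (𝓞 k), (6 * B.b : 𝓞 k) ∈ p.asIdeal → p ∈ Q) :
    ∏ p ∈ Q, np p ^ ordp p B.cc = (Ideal.absNorm B.cc : ℝ) := by
  obtain ⟨-, -, -, v4, -⟩ := vpi k
  obtain ⟨b0, b1, b2, -⟩ := bfn k B
  rw [← v4 B.cc Q b2 ?_]
  intro p hp
  apply hQ
  exact Ideal.mul_mem_left _ _ (hp (b_mem B))

/-- **MRB**. -/
theorem mrb (mrp : MrpStmt) (crd : CrdStmt) (vpi : VpiStmt) (lcg : LcgStmt) (bfn : BfnStmt) :
    MrbStmt := by
  intro k _ _ B E Q hQ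
  choose a R hR1 hR2 hR3 using mrp k B E
  let T : HeightOneSpectrum (𝓞 k) → Set (Unit → 𝓞 k) := fun p => {v | v () ∈ R p}
  have hT : ∀ p ∈ Q, ∀ v ∈ T p, ∀ v' : Unit → 𝓞 k, (∀ i, v i - v' i ∈ p.asIdeal ^ a p) →
      v' ∈ T p := by
    intro p _ v hv v' hvv
    exact hR1 p _ hv _ (hvv ())
  have hcrd := crd k Q a Unit T hT
  have hv6 := (vpi k).2.2.2.2.2.1
  obtain ⟨b0, b1, b2, b3, b4, b5⟩ := bfn k B
  have hpos : ∀ p : HeightOneSpectrum (𝓞 k), 0 < np p := fun p => by linarith [hv6 p]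
  refine ⟨∏ p ∈ Q, p.asIdeal ^ a p,
    Ideal.Quotient.mk (∏ p ∈ Q, p.asIdeal ^ a p) '' {m | ∀ p ∈ Q, m ∈ R p}, ?_, ?_, ?_⟩
  · exact Finset.prod_ne_zero_iff.2 fun p _ => pow_ne_zero _ p.ne_bot
  · rintro m ⟨m', hm', hmm⟩
    have hm : ∀ p ∈ Q, m ∈ R p := by
      intro p hp
      refine hR1 p m' (hm' p hp) m ?_
      have h1 : m' - m ∈ ∏ p ∈ Q, p.asIdeal ^ a p := Ideal.Quotient.eq.1 hmm
      exact (Ideal.prod_le_inf.trans (Finset.inf_le hp)) h1
    refine ⟨?_, fun p hp => (hR2 p m (hm p hp)).2⟩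
    refine lcg k B.cc m b2 fun p => ?_
    by_cases hp : p ∈ Q
    · exact (hR2 p m (hm p hp)).1
    · refine ⟨2 * B.b, ?_, 0, Ideal.zero_mem _, ?_⟩
      · intro h
        apply hp
        apply hQ
        have h6 : (6 * B.b : 𝓞 k) = 3 * (2 * B.b) := by ring
        rw [h6]
        exact Ideal.mul_mem_left _ _ h
      · have h6 : (0 : 𝓞 k) ^ 2 + (2 * (B.b : 𝓞 k)) ^ 2 * m = 4 * ((B.b : 𝓞 k) ^ 2 * m) := by
          ring
        rw [h6]
        exact Ideal.mul_mem_mul (Ideal.mem_span_singleton_self _)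
          (Ideal.mul_mem_right _ _ (Ideal.pow_mem_pow (b_mem B) 2))
  · have h1 := unit_card (∏ p ∈ Q, p.asIdeal ^ a p) {m | ∀ p ∈ Q, m ∈ R p}
    have h2 : ((fun (v : Unit → 𝓞 k) (i : Unit) =>
        Ideal.Quotient.mk (∏ p ∈ Q, p.asIdeal ^ a p) (v i)) '' {v | ∀ p ∈ Q, v ∈ T p}).ncard =
        (Ideal.Quotient.mk (∏ p ∈ Q, p.asIdeal ^ a p) '' {m | ∀ p ∈ Q, m ∈ R p}).ncard := h1
    rw [← h2, hcrd]
    push_cast
    have hnp : (Ideal.absNorm (∏ p ∈ Q, p.asIdeal ^ a p) : ℝ) = ∏ p ∈ Q, np p ^ a p := by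
      rw [map_prod]
      push_cast
      refine Finset.prod_congr rfl fun p _ => ?_
      rw [map_pow]
      push_cast
      rfl
    rw [hnp, ← prod2 vpi B Q hQ, ← prodcc vpi bfn B Q hQ, ← Finset.prod_pow,
      ← Finset.prod_mul_distrib, ← Finset.prod_div_distrib, ← Finset.prod_mul_distrib]
    refine Finset.prod_le_prod (fun p _ => ?_) fun p _ => ?_
    · have h3 := hpos p
      have h4 := dE_nonneg E p (hv6 p)
      positivity
    · have h3 := hR3 p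
      rw [← unit_card] at h3
      refine le_trans (le_of_eq ?_) h3
      rw [← pow_mul, ← pow_add, mul_comm (ordp p B.cc) 2]

end Pool.Agent.LeoD.H89
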