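import Mathlib
import Pool.Agent.LeoD.CountStmts
import Pool.Agent.Helper89_LeoC.Lwa

/-!
# Squad LEOD, module LWS: the good vectors of a form in given residue classes modulo an ideal
(port of Helper89_LeoC.Lwa)
-/

set_option autoImplicit false

open NumberField NumberField.InfinitePlace NumberField.mixedEmbedding IsDedekindDomain Module
  MeasureTheory Filter Topology
open Pool.Agent.Helper85_Leo Pool.Agent.LeoK Pool.Agent.LeoG Pool.Agent.LeoC
open Pool.Agent.LeoC.H89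

open scoped Classical

namespace Pool.Agent.LeoD.H89

theorem lws (hmap : MapStmt) (hvod : LeoC.VodStmt) (hcov : LeoC.CovStmt) (hltl : LtlStmt)
    (hcon : LeoC.ConStmt) : LwsStmt := by
  classical
  intro k _ _ Φ N ε hε
  obtain ⟨hD, hvF, -, -, hnr, hbd⟩ := hcon k Φ
  have hn : 0 < finrank ℚ k := finrank_pos
  obtain ⟨n, hnn⟩ : ∃ n, n = finrank ℚ k := ⟨_, rfl⟩
  obtain ⟨η, hη, hopen, hbdd, hvol⟩ := hvod k Φ N (ε / 2 ^ (n + 1)) (by positivity)
  rw [← hnn] at hvol hn ⊢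
  refine ⟨η / 2, by positivity, fun δ I S hδ hI => ?_⟩
  obtain ⟨κ, _, B', hB', hvolB⟩ := hcov k I hI
  have hδ2 : 0 < min 1 δ / 2 := by
    have := lt_min one_pos hδ
    linarith
  have haar := haar_ws (k := k)
  obtain ⟨t0, ht0, hltl'⟩ := hltl (WS k) volume (κ ⊕ κ) (DD Φ N η) hopen hbdd (min 1 δ / 2)
    ((cov k * (Ideal.absNorm I : ℝ)) ^ 2 / 2 ^ n) (ε / 2 ^ (n + 1)) hδ2 (by positivity)
  refine ⟨max 1 (t0 ^ (2 * n)), by positivity, fun T hT g hg => ?_⟩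
  have hT1 : 1 ≤ T := (le_max_left _ _).trans hT
  have hT0 : 0 < T := by linarith
  obtain ⟨t, htdef⟩ : ∃ t : ℝ, t = T ^ (((2 * n : ℕ) : ℝ)⁻¹) := ⟨_, rfl⟩
  have htT : t ^ (2 * n) = T := by
    rw [htdef]
    exact Real.rpow_inv_natCast_pow hT0.le (by omega)
  have htpos : 0 < t := by
    rw [htdef]
    exact Real.rpow_pos_of_pos hT0 _
  have ht1 : 1 ≤ t := by
    by_contra hc
    push Not at hc
    have := pow_lt_one₀ htpos.le hc (show 2 * n ≠ 0 by omega)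
    linarith
  have htt0 : t0 ≤ t := by
    have h1 : t0 ^ (2 * n) ≤ t ^ (2 * n) := by
      rw [htT]
      exact (le_max_right _ _).trans hT
    exact le_of_pow_le_pow_left₀ (by omega) htpos.le h1
  obtain ⟨L, hLvol, hL⟩ := hmap k N g hg.sgn
  have hLw : ∀ X Y : 𝓞 k, wz (L (pr X Y)) = hk g X Y := fun X Y => (hL X Y).1
  obtain ⟨b, hb⟩ : ∃ b : Basis (κ ⊕ κ) ℝ (WS k), b = (B'.prod B').map L.toLinearEquiv := ⟨_, rfl⟩
  have hbvol : (volume (ZSpan.fundamentalDomain b)).toReal =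
      (cov k * (Ideal.absNorm I : ℝ)) ^ 2 / 2 ^ n := by
    rw [hb, vol_fd B' L hLvol, hvolB, hnn]
  have hspan : ∀ y ∈ Submodule.span ℤ (Set.range b), ∃ X ∈ I, ∃ Y ∈ I, y = L (pr X Y) := by
    intro y hy
    rw [hb] at hy
    exact span_pr I B' hB' L.toLinearEquiv y hy
  have hshort : ∀ y ∈ Submodule.span ℤ (Set.range b), y ≠ 0 → min 1 δ / 2 ≤ ‖y‖ := by
    intro y hy hy0
    obtain ⟨X, _, Y, _, rfl⟩ := hspan y hy
    refine norm_low hδ _ ?_
    rw [hLw]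
    refine hg.short X Y ?_
    by_contra hc
    push Not at hc
    apply hy0
    have e0 : ((0 : 𝓞 k) : k) = 0 := rfl
    have e : (pr 0 0 : MS k × MS k) = 0 := by
      rw [pr, e0, map_zero]
      rfl
    rw [hc.1, hc.2, e, map_zero]
  have hcount := hltl' t htt0 b hshort hbvol.le
  have hfr : finrank ℝ (WS k) = 2 * n := by
    rw [← L.toLinearEquiv.finrank_eq, Module.finrank_prod, mixedEmbedding.finrank, ← hnn]
    ring
  rw [hfr, htT, hbvol] at hcount
  obtain ⟨G, hG⟩ : ∃ G : Set (𝓞 k × 𝓞 k), G = {p : 𝓞 k × 𝓞 k |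
        (Ideal.Quotient.mk I p.1, Ideal.Quotient.mk I p.2) ∈ S ∧
        hk g p.1 p.2 ∈ Φ.F ∧ nr (hk g p.1 p.2) ≤ T ∧
        ∀ v : InfinitePlace k, η / 2 * v ((mm g : 𝓞 k) : k) ^ (1 / 4 : ℝ) ≤
          v ((gval g p.1 p.2 : 𝓞 k) : k)} := ⟨_, rfl⟩
  rw [← hG]
  have hGfin : G.Finite := by
    refine (fin_marks Φ g L hLw T (hbd T hT0).1).subset (fun p hp => ?_)
    rw [hG] at hp
    exact ⟨hp.2.1, hp.2.2.1⟩
  have hfinq : Finite (𝓞 k ⧸ I) := Ideal.finiteQuotientOfFreeOfNeBot I hI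
  have hSfin : S.Finite := Set.toFinite S
  have habs : 0 < Ideal.absNorm I := by
    rw [Nat.pos_iff_ne_zero, Ne, Ideal.absNorm_eq_zero_iff]
    exact hI
  obtain ⟨f, hfdef⟩ : ∃ f : 𝓞 k × 𝓞 k → (𝓞 k ⧸ I) × (𝓞 k ⧸ I),
    f = fun p => (Ideal.Quotient.mk I p.1, Ideal.Quotient.mk I p.2) := ⟨_, rfl⟩
  have hclass : ∀ c ∈ hSfin.toFinset, ((volume (DD Φ N η)).toReal - ε / 2 ^ (n + 1)) * T /
      ((cov k * (Ideal.absNorm I : ℝ)) ^ 2 / 2 ^ n) ≤
      ((hGfin.toFinset.filter (fun p => f p = c)).card : ℝ) := by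
    intro c hc
    rw [Set.Finite.mem_toFinset] at hc
    obtain ⟨Xc, hXc⟩ := Ideal.Quotient.mk_surjective c.1
    obtain ⟨Yc, hYc⟩ := Ideal.Quotient.mk_surjective c.2
    obtain ⟨hAfin, hAc⟩ := hcount (L (pr Xc Yc))
    have hV : 0 < (cov k * (Ideal.absNorm I : ℝ)) ^ 2 / 2 ^ n := by
      have : (0 : ℝ) < (Ideal.absNorm I : ℝ) := by exact_mod_cast habs
      positivity
    rw [div_le_iff₀ hV]
    refine hAc.trans (mul_le_mul_of_nonneg_right ?_ hV.le)
    rw [Set.ncard_eq_toFinset_card _ hAfin]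
    have hex : ∀ y : WS k, y ∈ hAfin.toFinset → ∃ p : 𝓞 k × 𝓞 k,
        p ∈ hGfin.toFinset.filter (fun p => f p = c) ∧
          L (pr Xc Yc) + y = L (pr p.1 p.2) := by
      intro y hy
      rw [Set.Finite.mem_toFinset] at hy
      obtain ⟨X, hX, Y, hY, rfl⟩ := hspan y hy.1
      have hzz : L (pr Xc Yc) + L (pr X Y) = L (pr (Xc + X) (Yc + Y)) := by
        rw [pr_add, map_add]
      have hreg := region Φ N g hnr (Xc + X) (Yc + Y) (L (pr (Xc + X) (Yc + Y)))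
        (hLw _ _) (hL _ _).2.1 (hL _ _).2.2 t η ht1 (by
        rw [← hzz]
        exact hy.2)
      have hgc : f (Xc + X, Yc + Y) = c := by
        rw [hfdef]
        have e1 : Ideal.Quotient.mk I (Xc + X) = c.1 := by
          rw [map_add, Ideal.Quotient.eq_zero_iff_mem.2 hX, add_zero, hXc]
        have e2 : Ideal.Quotient.mk I (Yc + Y) = c.2 := by
          rw [map_add, Ideal.Quotient.eq_zero_iff_mem.2 hY, add_zero, hYc]
        exact Prod.ext e1 e2
      refine ⟨(Xc + X, Yc + Y), Finset.mem_filter.2 ⟨?_, hgc⟩, hzz⟩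
      rw [Set.Finite.mem_toFinset, hG]
      refine ⟨?_, hreg.1, ?_, hreg.2.2⟩
      · have e1 : (Ideal.Quotient.mk I (Xc + X), Ideal.Quotient.mk I (Yc + Y)) = c := by
          rw [← hgc, hfdef]
        simp only
        rw [e1]
        exact hc
      · rw [← htT, hnn]
        exact hreg.2.1
    choose! F hF1 hF2 using hex
    exact_mod_cast Finset.card_le_card_of_injOn F hF1 (fun y hy y' hy' h => by
      have e1 := hF2 y hy
      have e2 := hF2 y' hy'
      rw [h, ← e2] at e1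
      exact add_left_cancel e1)
  have hsum : (hSfin.toFinset.card : ℝ) * (((volume (DD Φ N η)).toReal - ε / 2 ^ (n + 1)) * T /
      ((cov k * (Ideal.absNorm I : ℝ)) ^ 2 / 2 ^ n)) ≤ (G.ncard : ℝ) := by
    rw [Set.ncard_eq_toFinset_card G hGfin, ← nsmul_eq_mul, ← Finset.sum_const]
    refine (Finset.sum_le_sum hclass).trans ?_
    rw [← Nat.cast_sum, Finset.sum_card_fiberwise_eq_card_filter]
    exact_mod_cast Finset.card_filter_le _ _
  have hA : (0 : ℝ) < (Ideal.absNorm I : ℝ) := by exact_mod_cast habs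
  have hS2 : (S.ncard : ℝ) / (Ideal.absNorm I : ℝ) ^ 2 * (Ideal.absNorm I : ℝ) ^ 2 ≤
      (hSfin.toFinset.card : ℝ) := by
    rw [div_mul_cancel₀ _ (pow_ne_zero 2 hA.ne'), Set.ncard_eq_toFinset_card S hSfin]
  exact final_ineq _ (cov k) (Ideal.absNorm I : ℝ) Φ.w _ ε T _ n (by positivity) hD
    hA hT0 hvol hS2 _ (Nat.cast_nonneg _) hsum

end Pool.Agent.LeoD.H89
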